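import Pool.Agent.Q211.TP.Vex2
import Pool.Agent.Q211.TP.Tyc

/-!
# A model of ZF with a P-space whose Hewitt extension is not a P-space

The model is a symmetric extension of permutation type. The atoms are the pairs in `ℕ × ℚ` (every
atom is represented by an infinite set of mutually generic Cohen reals), the group consists of the
sequences of order automorphisms of the blocks `{n} × ℚ`, and the supports are finite. The space
`X` has the nodes `0, 1, 2, …` and the atoms as points, where the block `n` lies between the nodes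
`n` and `n + 1`. Atoms are isolated, and nodes have the neighbourhoods of the order topology. If
the open sets `A i` contain the node `n`, then their intersection contains all atoms between the
last atom of the support (of the sequence) in the block `n - 1` and the first one in the block
`n`, so `X` is a `P`-space. A continuous function `f` from `X` to `ℕ` is constant on every block
without atoms of its support, so it is constant on a final segment. Hence the evaluations at the
nodes converge to a point `G` of the Hewitt extension `V`. Let `U n` be the set of the points of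
`V` at which some characteristic function of a final segment starting at an atom of the block `n`
has the value `1`. These sets are open and contain `G`, but the evaluation at the node `n` is not
in `U n`, so the intersection is not a neighbourhood of `G`.
-/

set_option autoImplicit false

namespace Pool.Agent.Results.MP_a61393_lc.HewittNotP

open Pool.Agent.W868 Pool.Agent.W868.PName Pool.Agent.Q211.SY Pool.Agent.Q211.FS
open Pool.Agent.Q211.TP

/-- There is a countable transitive model of ZF in which, for the discrete space `E` of the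
natural numbers, the discrete space of the real numbers is `E`-compact, and some `E`-completely
regular `P`-space has a Hewitt `E`-compact extension that is not a `P`-space. -/
theorem result : ∃ M : Set ZFSet.{0}, M.Countable ∧ IsZF M ∧
    ∃ R ∈ M, ∃ ρ ∈ M, IsReals M R ρ ∧
    ∃ E ∈ M, ∃ σ ∈ M, E = ZFSet.omega ∧ σ = PM M E ∧ IsTopIn M E σ ∧ TychIn M R ρ E σ ∧
      ECompactIn M E σ R (PM M R) ∧
      ∃ X ∈ M, ∃ τ ∈ M, IsTopIn M X τ ∧ IsPSpace M X τ ∧ ERegIn M E σ X τ ∧
        ∃ V ∈ M, ∃ υ ∈ M, IsHewitt M E σ X τ V υ ∧ ¬ IsPSpace M V υ := by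
  obtain ⟨M, pt, X, K, R0, BL, h⟩ := exists_chf ℚ
  have hM := h.zf
  obtain ⟨R, hR, ρ, hρ, hRρ⟩ := exists_line hM h.qc h.lq
  have hE := goodE_nat hM
  have hom : ZFSet.omega ∈ M := hM.infinity
  obtain ⟨K2, hK2, R2, hR2, h3, h4⟩ := h.exists_K2
  have h2 : K2M h K2 R2 := ⟨hK2, hR2, h3, h4⟩
  have hS := h.exists_B
  obtain ⟨τ, hτM, hτ⟩ := exists_gen hM hS.1 hK2 hR2
  have hsub : ∀ (U : ZFSet.{0}) (x : ZFSet.{0}), x ∈ M → U ∈ M → U \ {x} ∈ M := by
    intro U x hx hU
    have h8 : U \ {x} = ZFSet.sep (fun z => z ≠ x) U := by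
      ext z
      rw [ZFSet.mem_sep, ZFSet.mem_sdiff, ZFSet.mem_singleton]
    rw [h8]
    exact hM.sep_mem (Q := fun z => z ≠ x)
      (Dfn.not (Dfn.eq (DfnF.proj 0) (DfnF.const hx))) hU
  have hzd : ZeroDim ZFSet.omega (PM M ZFSet.omega) := by
    refine ⟨fun x hx => mem_PM.2 ⟨hsub _ _ (hM.trans _ hom _ hx) hom, fun z hz =>
      (ZFSet.mem_sdiff.1 hz).1⟩, fun U hU x hx => ?_⟩
    obtain ⟨hUM, hUX⟩ := mem_PM.1 hU
    have hxM := hM.trans _ hUM _ hx
    refine ⟨{x}, mem_PM.2 ⟨hM.single_mem hxM, fun z hz => ?_⟩, mem_PM.2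
      ⟨hsub _ _ hxM hom, fun z hz => (ZFSet.mem_sdiff.1 hz).1⟩, ZFSet.mem_singleton.2 rfl,
      fun z hz => ?_⟩
    · rw [ZFSet.mem_singleton.1 hz]
      exact hUX hx
    · rw [ZFSet.mem_singleton.1 hz]
      exact hx
  have hHe := h2.hewitt hS hτM hτ flat_omega hE
  exact ⟨M, h.cnt, hM, R, hR, ρ, hρ, hRρ, _, hom, _, PM_mem hM hom, rfl, rfl, hE.top,
    tych_of_zeroDim hM h.qc h.lq hR hRρ hom (PM_mem hM hom) hE.top hzd,
    rdisc_compact hM h.qc h.lq hR hRρ hE, _, hS.1, τ, hτM, hτ.top hM hS.1, h2.pSpace hS hτ,
    hHe.1, hHe.2⟩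

end Pool.Agent.Results.MP_a61393_lc.HewittNotP
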